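import Pool.Agent.H504.MC.GraphFam

/-!
# MP_b696eb_nt: Deligne's conjecture and the graph hypersurfaces of graphs of degree at most three

For a graph `G` with the vertices `0, …, n` let `P_G` be Kirchhoff's polynomial, the sum over the
spanning trees of `G` of the products of the variables of their edges. It is the determinant of the
Laplace matrix without one row and one column, by the matrix tree theorem. The graph hypersurface of
`G` is given by `P_G = 0`.

**Theorem.** 1. The classes of the graph hypersurfaces of the graphs in which all vertices have degree at
most three generate the Grothendieck group of varieties, after inverting the class `L` of the line and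
the `L ^ j - 1`, `j ≥ 1`. The same is true for the complements `P_G ≠ 0`. (This is stated for arbitrary
motivic measures, on constructible sets over `ℤ`.) Belkale and Brosnan have proved this for the set of
all graphs.

2. Deligne's conjecture on `L(M, 0)` is true for all critical motives over `ℚ` with rational coefficients
if and only if it is true for the critical Tate twists of the simple motives that occur in the virtual
motives of the graph hypersurfaces of graphs with degrees at most three; the same for the complements.

Proof. Let `i` be a vertex of degree at least four. Move two of its edges to a new vertex `j`; the graph
obtained is `H`, and `G` is `H` with `i` and `j` identified. Let `F = P_G` and `P = P_H`. If `i` and `j`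
are joined by an edge or by a path of length two, one gets the polynomials `x F + P` and
`x y F + (x + y) P`. The classes of the complements of these two hypersurfaces and of `P = 0` determine
the class of the complement of `F = 0`, as is shown by a computation with the four sets where `F` and `P`
are zero or not. All three graphs have a smaller sum of the `max(deg - 3, 0)`. So one gets all graphs, and
therefore all varieties of symmetric matrices with prescribed zeros outside the diagonal and nonzero
determinant. From these one gets the symmetric matrices of rank three with prescribed zeros outside the
diagonal, and then the configurations of points and lines in the plane with prescribed incidences.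
-/

set_option autoImplicit false

namespace Pool.Agent.Results.MP_b696eb_nt.GraphHypersurfaces

open Pool.Agent.H504.MC

theorem result :
    (∀ k : ℕ, 3 ≤ k → Generates (GraphHypersurfaces k) ∧ Generates (GraphComplements k)) ∧
    ∀ (Sim : Type) (𝓜 : Motives Sim) (D : CriticalValues Sim), D.Additive →
      ((∀ M, D.Deligne M) ↔ 𝓜.HoldsFor (GraphHypersurfaces 3) D.Deligne) ∧
      ((∀ M, D.Deligne M) ↔ 𝓜.HoldsFor (GraphComplements 3) D.Deligne) :=
  ⟨fun _ hk => ⟨generates_hypersurfaces hk, generates_complements hk⟩,
    fun _ 𝓜 D hD => ⟨deligne_zero_iff (generates_hypersurfaces le_rfl) 𝓜 D hD,
      deligne_zero_iff (generates_complements le_rfl) 𝓜 D hD⟩⟩

end Pool.Agent.Results.MP_b696eb_nt.GraphHypersurfaces
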