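import Pool.Graph.R_pool_sql_team_seeded_2aa45f1a.Q193.LT.Crit
import Pool.Agent.H502.HQ.Main
import Pool.Agent.H502.HQ.Lin

/-!
# Critical values of motivic `L`-functions and harmonic quadruples of points on the projective line

Four different points `p, q, r, s` of the projective line form a harmonic quadruple `(p, q; r, s)` if
their cross ratio is `-1`. For a finite set `H` of quadruples of the labels of the `n + 3` points
`∞, 0, 1, x_1, …, x_n` let `X_H` be the space of all `n`-tuples of points `x_i` of the projective line,
different from each other and from `∞, 0, 1`, such that the quadruples in `H` are harmonic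
(`harmS ℚ n H`). It is a closed subscheme of the moduli space `M_{0, n+3}` of `n + 3` different points
of the projective line, defined over `ℚ` by equations `x_i + x_j = 2 x_k` and
`(x_i - x_k) (x_j - x_l) + (x_i - x_l) (x_j - x_k) = 0`, where the letters may also stand for `0`, `1`.

Let `M` be the category of motives over `ℚ` for absolute Hodge cycles, with rational coefficients, a
semisimple abelian category with Tate twists `N ↦ N(a)`. For a separated `ℚ`-scheme `X` of finite type
let `D.H i X` be the object of `M` given by the graded object of the weight filtration of the cohomology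
with compact supports `H^i_c(X)`; for smooth projective `X` it is the motive `h^i(X)`. As the weight
filtration is strict, the long exact sequence of a closed subscheme and its open complement gives an
exact sequence in `M`.

For a motive `N` let `C.crit N` say that `N` is pure and critical, let `C.L N = L(N, 0)` be the value of
its `L`-function (the meromorphic continuation is assumed, as in the problem) and let `C.c N` be
Deligne's period `c⁺(N)`, computed in some rational bases. `Deligne ℚ C N` is Deligne's conjecture for
`N`: if `N` is critical, then `L(N, 0) ∈ ℚ c⁺(N)`. `Facts D (Deligne ℚ C) N` says that the conjecture is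
true for all direct factors of all Tate twists `N(a)`. Every motive over `ℚ` is a direct sum of direct
factors of motives `h^i(Y)(a)`, `Y` smooth projective over `ℚ`; so the conjecture of question Q1 says
that `Facts D (Deligne ℚ C) (D.H i Y)` is true for all smooth projective `Y` over `ℚ` and all `i`.

**Theorem.** (1) For all `d`, Deligne's conjecture is true for all critical direct factors of the Tate
twists of the motives `h^i(Y)` of all smooth projective varieties `Y` of dimension at most `d` over `ℚ`
if and only if it is true for the critical direct factors of the Tate twists of the motives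
`Gr^W H^i_c(X_H)`, for all smooth integral `X_H` of dimension at most `d` such that all the quadruples in
`H` contain `∞` or `1`. So Deligne's conjecture is true for all motives over `ℚ` if and only if it is
true for those `X_H`.

(2) Unconditionally (by Euler's theorem on the values of the zeta function, `point`) it is true for the
critical direct factors of the Tate twists of the motives `Gr^W H^i_c(X_H)` for all `H` such that all the
quadruples in `H` contain the point `∞`. So two points are enough for all varieties, and one point gives
only known cases.

(3) Every domain `A` of finite type over `ℚ` has an element `f ≠ 0` such that `Spec A[1/f]` is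
isomorphic to a space `X_H` such that all the quadruples in `H` contain `∞` or `1`.
-/

set_option autoImplicit false

open CategoryTheory CategoryTheory.Limits AlgebraicGeometry Pool.Agent.Y116.UV Pool.Agent.Z125.UN
  Pool.Agent.Q193.LT Pool.Agent.H502.HQ

universe v u

namespace Pool.Agent.Results.MP_b696eb_nt.HarmonicQuadruples

/-- **Critical values and harmonic quadruples.** See the explanations above. The hypothesis `point`
is the known case of the Tate motives `ℚ(a)` (Euler). -/
theorem result {M : Type u} [Category.{v} M] [Abelian M] {D : CompactData ℚ M} (h : IsMotives D)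
    {C : CritData M ℂ} (hC : IsCrit ℚ C)
    (point : ∀ i, Facts D (Deligne ℚ C) (D.H i (aff ℚ ℚ))) :
    (∀ d : ℕ, (∀ Y : Sch ℚ, SmoothProj Y → topologicalKrullDim Y.left ≤ d →
        ∀ i, Facts D (Deligne ℚ C) (D.H i Y)) ↔
      ∀ (n : ℕ) (H : Finset (Fin 4 → Fin 3 ⊕ Fin n)), Meets H → Smooth (harmS ℚ n H).hom →
        IsIntegral (harmS ℚ n H).left → topologicalKrullDim (harmS ℚ n H).left ≤ d →
        ∀ i, Facts D (Deligne ℚ C) (D.H i (harmS ℚ n H))) ∧
    (∀ (n : ℕ) (H : Finset (Fin 4 → Fin 3 ⊕ Fin n)), (∀ h ∈ H, ∃ i, h i = Sum.inl 0) →
      ∀ i, Facts D (Deligne ℚ C) (D.H i (harmS ℚ n H))) ∧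
    ∀ (A : Type) [CommRing A] [IsDomain A] [Algebra ℚ A] [Algebra.FiniteType ℚ A],
      ∃ (f : A) (n : ℕ) (H : Finset (Fin 4 → Fin 3 ⊕ Fin n)), f ≠ 0 ∧ Meets H ∧
        Nonempty (aff ℚ (Localization.Away f) ≅ harmS ℚ n H) := by
  have h2 : (2 : ℚ) ≠ 0 := two_ne_zero
  have hS : IsTateSerre D (Facts D (Deligne ℚ C)) := deligne_serre h.compact h.semisimple hC
  have hP := bnd_compact h.compact hS point
  refine ⟨fun d => ?_, fun n H hH => harm_lin hP H hH, ?_⟩
  · refine Iff.trans ?_ (harm_iff hP h2 frac_rat d)
    exact ⟨fun h' => h.generated d _ hS h', fun h' Y hY hd => h' Y hY.ft hd⟩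
  · intro A _ _ _ _
    obtain ⟨f, n, H, hf, hm, ⟨e⟩⟩ := exists_harm h2 A frac_rat
    exact ⟨f, n, H, hf, hm, ⟨affIso e.symm⟩⟩

end Pool.Agent.Results.MP_b696eb_nt.HarmonicQuadruples
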