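import Pool.Agent.H504.MC.ThinFam

/-!
# MP_b696eb_nt: Deligne's conjecture and determinants with three terms in every row and column

For a set `T` of places of an `n × n` matrix let `det_T` be the determinant of the matrix whose entries
are independent variables at the places in `T` and zero at the other places. The pattern `T` is `k`-thin if
every row and every column contains at most `k` places of `T`.

**Theorem.** 1. The classes of the smooth affine hypersurfaces `det_T = 1`, for all `n` and all `k`-thin `T`,
generate the Grothendieck group of varieties, after inverting the class `L` of the line and the `L ^ j - 1`,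
`j ≥ 1`, if and only if `k ≥ 3`. The same is true for the complements `det_T ≠ 0` and for the hypersurfaces
`det_T = 0`. (This is stated for arbitrary motivic measures, on constructible sets over `ℤ`.)

2. For `k ≤ 2` only Tate motives occur in the virtual motives of these sets.

3. Deligne's conjecture on `L(M, 0)` is true for all critical motives over `ℚ` with rational coefficients
if and only if it is true for the critical Tate twists of the simple motives that occur in the virtual
motives of the hypersurfaces `det_T = 1` with `3`-thin `T`; the same for `det_T ≠ 0` and for `det_T = 0`.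

Proof. One more free column changes the numbers of matrices of given rank by a triangular system with
the diagonal entries `L ^ m - L ^ r`; so the classes of the invertible matrices with prescribed zeros
generate those of the matrices of rank three with prescribed zeros. For these one uses von Staudt's
constructions in the projective plane. A row with more than three variables can be split into two rows
and one more column with two variables.
-/

set_option autoImplicit false

namespace Pool.Agent.Results.MP_b696eb_nt.SparseDeterminants

open Pool.Agent.H504.MC

theorem result :
    (∀ k : ℕ, (Generates (ThinUnimodular k) ↔ 3 ≤ k) ∧ (Generates (ThinInvertible k) ↔ 3 ≤ k) ∧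
      (Generates (ThinSingular k) ↔ 3 ≤ k)) ∧
    (∀ (Sim : Type) (𝓜 : Motives Sim), 𝓜.OnlyTate (ThinUnimodular 2) ∧
      𝓜.OnlyTate (ThinInvertible 2) ∧ 𝓜.OnlyTate (ThinSingular 2)) ∧
    ∀ (Sim : Type) (𝓜 : Motives Sim) (D : CriticalValues Sim), D.Additive →
      ((∀ M, D.Deligne M) ↔ 𝓜.HoldsFor (ThinUnimodular 3) D.Deligne) ∧
      ((∀ M, D.Deligne M) ↔ 𝓜.HoldsFor (ThinInvertible 3) D.Deligne) ∧
      ((∀ M, D.Deligne M) ↔ 𝓜.HoldsFor (ThinSingular 3) D.Deligne) :=
  ⟨fun k => ⟨generates_thinUnimodular_iff k, generates_thinInvertible_iff k,
      generates_thinSingular_iff k⟩,
    fun _ 𝓜 => ⟨onlyTate (tate_thinUnimodular le_rfl) 𝓜, onlyTate (tate_thinInvertible le_rfl) 𝓜,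
      onlyTate (tate_thinSingular le_rfl) 𝓜⟩,
    fun _ 𝓜 D hD => ⟨deligne_zero_iff (generates_thinUnimodular le_rfl) 𝓜 D hD,
      deligne_zero_iff (generates_thinInvertible le_rfl) 𝓜 D hD,
      deligne_zero_iff (generates_thinSingular le_rfl) 𝓜 D hD⟩⟩

end Pool.Agent.Results.MP_b696eb_nt.SparseDeterminants
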